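import Pool.Agent.N375.AV.D
import Pool.Agent.N375.AV.F
import Pool.Agent.T9h59.HC.Count

/-!
# The discriminant bound for all hyperelliptic curves with heights near the values of compositions of additive functions

Hyperelliptic curves of genus `g ≥ 2` over a number field `K` all of whose Weierstrass points are rational: the twists by
`d ∈ K*` of `y² = X ∏ (X - x_i)`, where `x` is a point `P` of `P^{2g-1}(K)` with `0, x_i` different. Let `F = f_1 ∘ ⋯ ∘ f_k`,
`f_i` dominated by the largest prime factor, for example additive functions with `f (q ^ j) ≤ C q ^ j` that are injective at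
the large primes, the largest prime factor or Kempner's function, and let `G` have steps bounded below by a positive constant
and growth at most `v^e`. If `κ > 4 g + 4` and `e`, `θ` are small in terms of `κ`, then for all `m ≤ X` but
`L X exp (- a (log X)^(1 / (k + 1)))` the inequality `Δ_C ≤ c M_C ^ κ` holds for ALL twists of ALL configurations with
`|H_K(P) ^ (2g) - G (F m)| ≤ F(m) ^ θ`; if `κ < 4 g + 4` it fails in the same sense for some twist of EACH of them. The values
of `F` are much smaller than `m` and are taken with very large multiplicities.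

Method: the starting theorem `RationalWeierstrassPoints` of this problem on the number of the exceptional configurations, and
the preimage bounds of `N375/AV` (starting library).
-/

set_option autoImplicit false

open NumberField Height Finset LinearAlgebra.Projectivization

namespace Pool.Agent.Results.MP_ca2859_nt.AdditiveValues

open Pool.Agent.T9h59.HC (Config AllTwists SomeTwist eAbove eBelow count_above count_below eAbove_nonneg eBelow_nonneg
  eAbove_lt eBelow_lt)
open Pool.Agent.N733.TG (Expanding expanding_pow)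
open Pool.Agent.N375.AV (PD comp good pd_additive pd_largest pd_kempner)

/-- **Theorem.** Let `F = f_1 ∘ ⋯ ∘ f_k`, `f_i` dominated by the largest prime factor. Let `G` have steps `≥ a > 0` and growth
at most `v^e`. Let `K` be a number field, `g ≥ 2`, `c > 0` and `θ ≥ 0`. (1) If `κ > 4 g + 4` then `eAbove g κ < 1`, and if
`e * eAbove g κ + θ < 1` then for all `m ≤ X` but `L X exp (- a (log X)^(1 / (k + 1)))`, `Δ_C ≤ c M_C ^ κ` holds for ALL twists
of ALL configurations `P` with `|H_K(P) ^ (2 g) - G (F m)| ≤ F(m) ^ θ`. (2) If `0 ≤ κ < 4 g + 4` then `eBelow g κ < 1`, and if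
`e * eBelow g κ + θ < 1`, in the same sense, for EACH such configuration the inequality fails for some twist. (3) The
additive functions with `f (q^j) ≤ C q^j` which are injective at the large primes, the largest prime factor and Kempner's
function are examples of `f_i`, and `G v = α v^e` with `α > 0`, `e ≥ 1` is an example of `G`. -/
theorem result :
    (∀ fs : List (ℕ → ℕ), (∀ f ∈ fs, PD f) → ∀ (G : ℕ → ℝ) (e : ℝ), Expanding G e →
      ∀ (K : Type) [Field K] [NumberField K] (g n : ℕ) (κ c θ : ℝ), 2 ≤ g → n + 1 = 2 * g → 0 < c → 0 ≤ θ →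
      (4 * g + 4 < κ → eAbove g κ < 1 ∧ (e * eAbove g κ + θ < 1 → ∃ a L : ℝ, 0 < a ∧ ∀ X : ℕ, 1 ≤ X →
        ({m : ℕ | 1 ≤ m ∧ m ≤ X ∧ ¬ ∀ P : ℙ K (Fin (n + 1) → K), Config P →
          |P.mulHeight ^ (2 * g) - G (comp fs m)| ≤ (comp fs m : ℝ) ^ θ → AllTwists g κ c P}.ncard : ℝ) ≤
        L * X * Real.exp (-(a * Real.log X ^ ((1 : ℝ) / (fs.length + 1)))))) ∧
      (0 ≤ κ → κ < 4 * g + 4 → eBelow g κ < 1 ∧ (e * eBelow g κ + θ < 1 → ∃ a L : ℝ, 0 < a ∧ ∀ X : ℕ, 1 ≤ X →
        ({m : ℕ | 1 ≤ m ∧ m ≤ X ∧ ¬ ∀ P : ℙ K (Fin (n + 1) → K), Config P →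
          |P.mulHeight ^ (2 * g) - G (comp fs m)| ≤ (comp fs m : ℝ) ^ θ → SomeTwist g κ c P}.ncard : ℝ) ≤
        L * X * Real.exp (-(a * Real.log X ^ ((1 : ℝ) / (fs.length + 1))))))) ∧
    (∀ f : ℕ → ℕ, (∀ a b : ℕ, Nat.Coprime a b → f (a * b) = f a + f b) →
      (∃ C : ℕ, ∀ q j : ℕ, q.Prime → 1 ≤ j → f (q ^ j) ≤ C * q ^ j) →
      (∃ P : ℕ, ∀ p q : ℕ, p.Prime → q.Prime → P ≤ p → P ≤ q → f p = f q → p = q) → PD f) ∧
    (PD (fun n => n.primeFactors.sup id) ∧ PD (fun n => sInf {k : ℕ | n ∣ k.factorial})) ∧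
    ∀ α e : ℝ, 0 < α → 1 ≤ e → Expanding (fun v => α * (v : ℝ) ^ e) e := by
  refine ⟨fun fs hfs G e hG K _ _ g n κ c θ hg hn hc hθ => ⟨fun hκ => ⟨eAbove_lt K hg hn hκ, fun hle => ?_⟩,
    fun hκ0 hκ => ⟨eBelow_lt K hg hn hκ0 hκ, fun hle => ?_⟩⟩, fun f h2 h3 h4 => pd_additive h2 h3 h4,
    ⟨pd_largest, pd_kempner⟩, fun α e hα he => expanding_pow hα he⟩
  · exact good (T := ℙ K (Fin (n + 1) → K)) Config (AllTwists g κ c) (fun P => P.mulHeight ^ (2 * g)) fs hfs hG
      (eAbove_nonneg hg hκ) hθ hle (count_above K hg hn hc hκ)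
  · exact good (T := ℙ K (Fin (n + 1) → K)) Config (SomeTwist g κ c) (fun P => P.mulHeight ^ (2 * g)) fs hfs hG
      (eBelow_nonneg hg) hθ hle (count_below K hg hn hc hκ0 hκ)

end Pool.Agent.Results.MP_ca2859_nt.AdditiveValues
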