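import Pool.Agent.N790.CM.C
import Pool.Agent.T9h59.HC.Count

/-!
# The discriminant bound for all hyperelliptic curves with heights near all multiples of Carmichael's function

Hyperelliptic curves of genus `g ≥ 2` over a number field `K` all of whose Weierstrass points are rational: the twists by
`d ∈ K*` of `y² = X ∏ (X - x_i)`, where `x` is a point `P` of `P^{2g-1}(K)` with `0, x_i` different. For almost all `m`
(all `m ≤ x` but `x / (log x)^U`) and EVERY multiple `w ≤ x^B` of Carmichael's function `λ(m)`: if `κ > 4 g + 4` and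
`B (e eAbove + θ) < 1`, the inequality `Δ_C ≤ c M_C ^ κ` holds for ALL twists of ALL configurations with
`|H_K(P) ^ (2g) - G w| ≤ w ^ θ`; if `κ < 4 g + 4` and `B (e eBelow + θ) < 1` it fails for some twist of EACH of them. Here `G`
has steps bounded below by a positive constant and growth at most `v^e`. More generally `w` is any common multiple of the
values `f(p)`, `p` running through the large primes which divide `m` exactly once, where `f` takes each positive value at
boundedly many primes. A single `m` has a power of `x` multiples of this kind, and a single `w` serves many `m`.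

Method: the starting theorem `RationalWeierstrassPoints` of this problem on the number of the exceptional configurations, and
the tool `N790/CM` (starting library).
-/

set_option autoImplicit false

open NumberField Height Finset LinearAlgebra.Projectivization

namespace Pool.Agent.Results.MP_ca2859_nt.CarmichaelMultiples

open Pool.Agent.T9h59.HC (Config AllTwists SomeTwist eAbove eBelow count_above count_below eAbove_nonneg eBelow_nonneg
  eAbove_lt eBelow_lt)
open Pool.Agent.N733.TG (Expanding expanding_pow)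
open Pool.Agent.N790.CM (FewTimes Carries keep_windows fewTimes_pred pred_dvd_carmichael)

theorem multiples {T : Type} (Adm Good : T → Prop) (h : T → ℝ) {s : ℝ} (hs : 0 ≤ s) {G : ℕ → ℝ} {e θ B : ℝ}
    (hG : Expanding G e) (hθ : 0 ≤ θ) (hB : 1 ≤ B) (h1 : B * (e * s + θ) < 1)
    (hS : ∀ ε : ℝ, 0 < ε → ∃ C : ℝ, ∀ X : ℝ, 1 ≤ X →
      {t | (Adm t ∧ ¬ Good t) ∧ h t ≤ X}.Finite ∧ ({t | (Adm t ∧ ¬ Good t) ∧ h t ≤ X}.ncard : ℝ) ≤ C * X ^ (s + ε))
    (f : ℕ → ℕ) (T' : ℕ) (hf : FewTimes f T') (U : ℕ) :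
    ∃ N₀ : ℕ, ∀ N : ℕ, N₀ ≤ N →
      ({m : ℕ | 1 ≤ m ∧ m ≤ N ∧ ¬ ∀ w : ℕ, 1 ≤ w → (w : ℝ) ≤ (N : ℝ) ^ B →
          Carries f (Real.exp √(Real.log N)) m w →
          ∀ t, Adm t → |h t - G w| ≤ (w : ℝ) ^ θ → Good t}.ncard : ℝ) ≤ N / Real.log N ^ U := by
  refine (keep_windows {t | Adm t ∧ ¬ Good t} h hG hs hθ hB h1 hS).mono ?_ f T' hf U
  intro w _ hw t ht hnear
  by_contra hg
  exact hw t ⟨ht, hg⟩ hnear

/-- **Theorem.** Let `G` have steps `≥ a > 0` and growth at most `v^e`. Let `K` be a number field, `g ≥ 2`, `c > 0`, `θ ≥ 0`,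
`B ≥ 1`, and let `f` take each positive value at most `T` times at the primes. (1) If `κ > 4 g + 4` then `eAbove g κ < 1`, and
if `B (e * eAbove g κ + θ) < 1` then for every `U` and all large `x`, for all `m ≤ x` but `x / (log x)^U`: for EVERY `w` with
`1 ≤ w ≤ x^B` and `f(p) ∣ w` for all primes `p > exp (√(log x))` which divide `m` exactly once, `Δ_C ≤ c M_C ^ κ` holds for ALL
twists of ALL configurations `P` with `|H_K(P) ^ (2 g) - G w| ≤ w ^ θ`. (2) If `0 ≤ κ < 4 g + 4` then `eBelow g κ < 1`, and if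
`B (e * eBelow g κ + θ) < 1`, in the same sense, for EACH such configuration the inequality fails for some twist. (3) The
function `f(p) = p - 1` takes each value at most once, and every multiple of Carmichael's function `λ(m)` is divisible by
`p - 1` for all `p ∣ m`; and `α v^e` with `α > 0`, `e ≥ 1` is an example of `G`. -/
theorem result :
    (∀ (G : ℕ → ℝ) (e : ℝ), Expanding G e →
      ∀ (K : Type) [Field K] [NumberField K] (g n : ℕ) (κ c θ B : ℝ), 2 ≤ g → n + 1 = 2 * g → 0 < c → 0 ≤ θ → 1 ≤ B →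
      ∀ (f : ℕ → ℕ) (T : ℕ), FewTimes f T →
      (4 * g + 4 < κ → eAbove g κ < 1 ∧ (B * (e * eAbove g κ + θ) < 1 → ∀ U : ℕ, ∃ N₀ : ℕ, ∀ N : ℕ, N₀ ≤ N →
        ({m : ℕ | 1 ≤ m ∧ m ≤ N ∧ ¬ ∀ w : ℕ, 1 ≤ w → (w : ℝ) ≤ (N : ℝ) ^ B →
          Carries f (Real.exp √(Real.log N)) m w → ∀ P : ℙ K (Fin (n + 1) → K), Config P →
          |P.mulHeight ^ (2 * g) - G w| ≤ (w : ℝ) ^ θ → AllTwists g κ c P}.ncard : ℝ) ≤ N / Real.log N ^ U)) ∧
      (0 ≤ κ → κ < 4 * g + 4 → eBelow g κ < 1 ∧ (B * (e * eBelow g κ + θ) < 1 → ∀ U : ℕ, ∃ N₀ : ℕ, ∀ N : ℕ, N₀ ≤ N →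
        ({m : ℕ | 1 ≤ m ∧ m ≤ N ∧ ¬ ∀ w : ℕ, 1 ≤ w → (w : ℝ) ≤ (N : ℝ) ^ B →
          Carries f (Real.exp √(Real.log N)) m w → ∀ P : ℙ K (Fin (n + 1) → K), Config P →
          |P.mulHeight ^ (2 * g) - G w| ≤ (w : ℝ) ^ θ → SomeTwist g κ c P}.ncard : ℝ) ≤ N / Real.log N ^ U))) ∧
    (FewTimes (fun p => p - 1) 1 ∧
      ∀ (y : ℝ) (m w : ℕ), ArithmeticFunction.carmichael m ∣ w → Carries (fun p => p - 1) y m w) ∧
    ∀ α e : ℝ, 0 < α → 1 ≤ e → Expanding (fun v => α * (v : ℝ) ^ e) e := by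
  refine ⟨fun G e hG K _ _ g n κ c θ B hg hn hc hθ hB f T hf => ⟨fun hκ => ⟨eAbove_lt K hg hn hκ, fun hle U => ?_⟩,
    fun hκ0 hκ => ⟨eBelow_lt K hg hn hκ0 hκ, fun hle U => ?_⟩⟩,
    ⟨fewTimes_pred, fun y m w h p hp _ hpm _ => (pred_dvd_carmichael hp hpm).trans h⟩,
    fun α e hα he => expanding_pow hα he⟩
  · exact multiples (T := ℙ K (Fin (n + 1) → K)) Config (AllTwists g κ c) (fun P => P.mulHeight ^ (2 * g))
      (eAbove_nonneg hg hκ) hG hθ hB hle (count_above K hg hn hc hκ) f T hf U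
  · exact multiples (T := ℙ K (Fin (n + 1) → K)) Config (SomeTwist g κ c) (fun P => P.mulHeight ^ (2 * g))
      (eBelow_nonneg hg) hG hθ hB hle (count_below K hg hn hc hκ0 hκ) f T hf U

end Pool.Agent.Results.MP_ca2859_nt.CarmichaelMultiples
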