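import Pool.Agent.T9h59.OR.B
import Pool.Agent.T9h59.HC.Count

/-!
# The discriminant bound for all hyperelliptic curves with heights near the orders of the subgroups of `F_p^*`

Hyperelliptic curves of genus `g ≥ 2` over a number field `K` all of whose Weierstrass points are rational: the twists by
`d ∈ K*` of `y² = X ∏ (X - x_i)`, where `x` is a point `P` of `P^{2g-1}(K)` with `0, x_i` different. Let `G` have steps
bounded below by a positive constant and growth at most `v^e`, `0 ≤ b < 1`. If `κ > 4 g + 4` and `e`, `θ` are small in terms of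
`κ`, then for almost all primes `p` (all primes `p ≤ X` but a power of `X` less than `X`), for ALL subgroups of `F_p^*` which
contain an integer `a`, `2 ≤ a ≤ X^b`, for example those generated by such an integer, with the order `w`, the inequality
`Δ_C ≤ c M_C ^ κ` holds for ALL twists of ALL configurations with `|H_K(P) ^ (2g) - G w| ≤ w ^ θ`; if `κ < 4 g + 4` it fails in
the same sense for some twist of EACH of them. The number of the `w` which occur is not restricted, one prime has many subgroups of this kind, and one `w` can occur for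
many primes; the proof counts the primes with `p ∣ a ^ w - 1` for small `w`, and the cofactors `(p - 1) / w` for large `w`
(`T9h59/OR`).

The starting theorem `RationalWeierstrassPoints` of this problem bounds the number of the exceptional configurations.
-/

set_option autoImplicit false

open NumberField Height Finset LinearAlgebra.Projectivization

namespace Pool.Agent.Results.MP_ca2859_nt.SubgroupOrders

open Pool.Agent.T9h59.HC (Config AllTwists SomeTwist eAbove eBelow count_above count_below eAbove_nonneg eBelow_nonneg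
  eAbove_lt eBelow_lt)
open Pool.Agent.N733.TG (Expanding expanding_pow)
open Pool.Agent.T9h59.OR (SubOrder sub_good subOrder_orderOf)

/-- **Theorem.** Let `G` have steps `≥ a > 0` and growth at most `v^e`. Let `K` be a number field, `g ≥ 2`, `c > 0`, `θ ≥ 0` and
`0 ≤ b < 1`. (1) If `κ > 4 g + 4` then `eAbove g κ < 1`, and if `σ = e * eAbove g κ + θ < 1` and `ρ < (1 - b) (1 - σ) / 2`, then
for all primes `p ≤ X` but `M X^(1 - ρ)`: for the order `w` of EVERY subgroup of `F_p^*` which contains an integer `a`,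
`2 ≤ a ≤ X^b` (`SubOrder (X ^ b) p w`), `Δ_C ≤ c M_C ^ κ` holds for ALL twists of ALL configurations `P` with
`|H_K(P) ^ (2 g) - G w| ≤ w ^ θ`. (2) If `0 ≤ κ < 4 g + 4` then `eBelow g κ < 1`, and if `σ = e * eBelow g κ + θ < 1` and
`ρ < (1 - b) (1 - σ) / 2`, in the same sense, for EACH such configuration the inequality fails for some twist. (3) The order
of `a` modulo `p` is such a number `w`, and `G v = α v^e` with `α > 0`, `e ≥ 1` is an example of `G`. -/
theorem result :
    (∀ (G : ℕ → ℝ) (e : ℝ), Expanding G e →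
      ∀ (K : Type) [Field K] [NumberField K] (g n : ℕ) (κ c θ : ℝ), 2 ≤ g → n + 1 = 2 * g → 0 < c → 0 ≤ θ →
      ∀ b ρ : ℝ, 0 ≤ b → b < 1 →
      (4 * g + 4 < κ → eAbove g κ < 1 ∧ (e * eAbove g κ + θ < 1 → ρ < (1 - b) * (1 - (e * eAbove g κ + θ)) / 2 →
        ∃ M : ℝ, ∀ X : ℕ, 1 ≤ X →
        ({p : ℕ | p.Prime ∧ p ≤ X ∧ ¬ ∀ w, SubOrder ((X : ℝ) ^ b) p w → ∀ P : ℙ K (Fin (n + 1) → K), Config P →
          |P.mulHeight ^ (2 * g) - G w| ≤ (w : ℝ) ^ θ → AllTwists g κ c P}.ncard : ℝ) ≤ M * (X : ℝ) ^ (1 - ρ))) ∧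
      (0 ≤ κ → κ < 4 * g + 4 → eBelow g κ < 1 ∧ (e * eBelow g κ + θ < 1 →
        ρ < (1 - b) * (1 - (e * eBelow g κ + θ)) / 2 → ∃ M : ℝ, ∀ X : ℕ, 1 ≤ X →
        ({p : ℕ | p.Prime ∧ p ≤ X ∧ ¬ ∀ w, SubOrder ((X : ℝ) ^ b) p w → ∀ P : ℙ K (Fin (n + 1) → K), Config P →
          |P.mulHeight ^ (2 * g) - G w| ≤ (w : ℝ) ^ θ → SomeTwist g κ c P}.ncard : ℝ) ≤ M * (X : ℝ) ^ (1 - ρ)))) ∧
    (∀ (B : ℝ) (p a : ℕ), p.Prime → 2 ≤ a → (a : ℝ) ≤ B → ¬ p ∣ a → SubOrder B p (orderOf (a : ZMod p))) ∧
    ∀ α e : ℝ, 0 < α → 1 ≤ e → Expanding (fun v => α * (v : ℝ) ^ e) e := by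
  refine ⟨fun G e hG K _ _ g n κ c θ hg hn hc hθ b ρ hb0 hb1 =>
    ⟨fun hκ => ⟨eAbove_lt K hg hn hκ, fun hle hρ => ?_⟩, fun hκ0 hκ => ⟨eBelow_lt K hg hn hκ0 hκ, fun hle hρ => ?_⟩⟩,
    fun B p a hp ha haB hpa => subOrder_orderOf hp ha haB hpa, fun α e hα he => expanding_pow hα he⟩
  · exact sub_good (T := ℙ K (Fin (n + 1) → K)) Config (AllTwists g κ c) (fun P => P.mulHeight ^ (2 * g)) hG
      (eAbove_nonneg hg hκ) hθ hle (count_above K hg hn hc hκ) hb0 hb1 hρ
  · exact sub_good (T := ℙ K (Fin (n + 1) → K)) Config (SomeTwist g κ c) (fun P => P.mulHeight ^ (2 * g)) hG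
      (eBelow_nonneg hg) hθ hle (count_below K hg hn hc hκ0 hκ) hb0 hb1 hρ

end Pool.Agent.Results.MP_ca2859_nt.SubgroupOrders
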