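import Pool.Agent.N760.IT.C
import Pool.Agent.T9h59.HC.Count

/-!
# The discriminant bound for all hyperelliptic curves with heights along the orbits of Euler's function

Hyperelliptic curves of genus `g ≥ 2` over a number field `K` all of whose Weierstrass points are rational: the twists by
`d ∈ K*` of `y² = X ∏ (X - x_i)`, where `x` is a point `P` of `P^{2g-1}(K)` with `0, x_i` different. Let `f` be a positive
multiplicative function of at most polynomial growth with `f p ≤ M p` for the large primes `p`, injective at large primes (for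
instance the identity, Euler's function or the sum of the divisors), and let `G` have steps bounded below by a positive
constant and growth at most `v^e`. If `κ > 4 g + 4` and `e`, `θ` are small in terms of `κ`, there is `L(m)` tending to infinity
such that for almost all `m`, for all `j ≤ L(m)`, with `v = f(φ_j(m))`, `φ_j` the `j`-th iterate of Euler's function, the
inequality `Δ_C ≤ c M_C ^ κ` holds for ALL twists of ALL configurations with `|H_K(P) ^ (2g) - G v| ≤ v ^ θ`; if `κ < 4 g + 4`
it fails in the same sense for some twist of EACH of them.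

Method: the starting theorem `RationalWeierstrassPoints` of this problem on the number of the exceptional configurations, and
the iteration method of `N760/IT` (starting library).
-/

set_option autoImplicit false

open NumberField Height Finset LinearAlgebra.Projectivization

namespace Pool.Agent.Results.MP_ca2859_nt.TotientOrbits

open Pool.Agent.T9h59.HC (Config AllTwists SomeTwist eAbove eBelow count_above count_below eAbove_nonneg eBelow_nonneg
  eAbove_lt eBelow_lt)
open Filter
open Pool.Agent.N733.TG (LM Expanding lm_totient lm_sigma expanding_pow)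
open Pool.Agent.N760.IT (orb lm_id orbit_good)
open Pool.Agent.N826.IT.Orb (AlmostAll)

/-- **Theorem.** Let `f` be multiplicative and positive, of at most polynomial growth, with `f p ≤ M p` at the large primes,
and injective there. Let `G` have steps `≥ a > 0` and growth at most `v^e`. Let `K` be a number field, `g ≥ 2`, `c > 0` and
`θ ≥ 0`. (1) If `κ > 4 g + 4` then `eAbove g κ < 1`, and if `e * eAbove g κ + θ < 1` there is `L(m)` tending to infinity such
that for almost all `m`, for all `j ≤ L(m)`, with `v = f(φ_j(m))` (`orb f j m`), `Δ_C ≤ c M_C ^ κ` holds for ALL twists of ALL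
configurations `P` with `|H_K(P) ^ (2 g) - G v| ≤ v ^ θ`. (2) If `0 ≤ κ < 4 g + 4` then `eBelow g κ < 1`, and if
`e * eBelow g κ + θ < 1`, in the same sense, for EACH such configuration the inequality fails for some twist. (3) The
identity, Euler's function and the sum of the divisors are examples of `f`, and `G v = α v^e` with `α > 0`, `e ≥ 1` is an
example of `G`. -/
theorem result :
    (∀ f : ℕ → ℕ, LM f → ∀ (G : ℕ → ℝ) (e : ℝ), Expanding G e →
      ∀ (K : Type) [Field K] [NumberField K] (g n : ℕ) (κ c θ : ℝ), 2 ≤ g → n + 1 = 2 * g → 0 < c → 0 ≤ θ →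
      (4 * g + 4 < κ → eAbove g κ < 1 ∧ (e * eAbove g κ + θ < 1 → ∃ L : ℕ → ℕ, Tendsto L atTop atTop ∧
        AlmostAll (fun m => ∀ j ≤ L m, ∀ P : ℙ K (Fin (n + 1) → K), Config P →
          |P.mulHeight ^ (2 * g) - G (orb f j m)| ≤ (orb f j m : ℝ) ^ θ → AllTwists g κ c P))) ∧
      (0 ≤ κ → κ < 4 * g + 4 → eBelow g κ < 1 ∧ (e * eBelow g κ + θ < 1 → ∃ L : ℕ → ℕ, Tendsto L atTop atTop ∧
        AlmostAll (fun m => ∀ j ≤ L m, ∀ P : ℙ K (Fin (n + 1) → K), Config P →
          |P.mulHeight ^ (2 * g) - G (orb f j m)| ≤ (orb f j m : ℝ) ^ θ → SomeTwist g κ c P)))) ∧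
    (LM (fun m => m) ∧ LM Nat.totient ∧ LM (fun m => ∑ d ∈ m.divisors, d)) ∧
    ∀ α e : ℝ, 0 < α → 1 ≤ e → Expanding (fun v => α * (v : ℝ) ^ e) e := by
  refine ⟨fun f hf G e hG K _ _ g n κ c θ hg hn hc hθ => ⟨fun hκ => ⟨eAbove_lt K hg hn hκ, fun hle => ?_⟩,
    fun hκ0 hκ => ⟨eBelow_lt K hg hn hκ0 hκ, fun hle => ?_⟩⟩, ⟨lm_id, lm_totient, lm_sigma⟩,
    fun α e hα he => expanding_pow hα he⟩
  · exact orbit_good (T := ℙ K (Fin (n + 1) → K)) Config (AllTwists g κ c) (fun P => P.mulHeight ^ (2 * g)) hf hG
      (eAbove_nonneg hg hκ) hθ hle (count_above K hg hn hc hκ)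
  · exact orbit_good (T := ℙ K (Fin (n + 1) → K)) Config (SomeTwist g κ c) (fun P => P.mulHeight ^ (2 * g)) hf hG
      (eBelow_nonneg hg) hθ hle (count_below K hg hn hc hκ0 hκ)

end Pool.Agent.Results.MP_ca2859_nt.TotientOrbits
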